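import Pool.Agent.H10.BL.Stmts

/-! # BL, row LPN: linear programme for a coordinate without big layer -/

set_option autoImplicit false

namespace Pool.BL

namespace H34LPN

theorem phi_cases (x g : ℝ) : Phi x g = x ∨ Phi x g = 3 * x / 2 - g / 4 ∨
    Phi x g = 2 * x - 3 * g / 4 := by
  unfold Phi
  rcases max_choice x (max (3 * x / 2 - g / 4) (2 * x - 3 * g / 4)) with h | h
  · exact Or.inl h
  · rcases max_choice (3 * x / 2 - g / 4) (2 * x - 3 * g / 4) with h' | h'
    · exact Or.inr (Or.inl (by rw [h, h']))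
    · exact Or.inr (Or.inr (by rw [h, h']))

end H34LPN

open H34LPN

theorem lpn_thm : S_LPN := by
  intro p1 p2 p3 p4 h c x xj xk h1 h2 h3 h4 hh hx hj hk hs hij hik hjk q1 q2 q3 q4 hh1 hc hm
  by_contra hcon
  push Not at hcon
  obtain ⟨a1, a2, a3⟩ := hcon
  rcases phi_cases xj (4 * p4 + c) with e2 | e2 | e2 <;>
  rcases phi_cases xk (4 * p4 + c) with f2 | f2 | f2 <;> rw [e2, f2] at a2 <;> clear e2 f2 <;>
  try linarith
  all_goals
    rcases phi_cases xj (2 * p2 + 4 * p4 + c) with e3 | e3 | e3 <;>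
    rcases phi_cases xk (2 * p2 + 4 * p4 + c) with f3 | f3 | f3 <;> rw [e3, f3] at a3 <;>
    clear e3 f3 <;> try linarith
  all_goals
    rcases phi_cases xj (4 * p4) with e1 | e1 | e1 <;>
    rcases phi_cases xk (4 * p4) with f1 | f1 | f1 <;> rw [e1, f1] at a1 <;>
    clear e1 f1 <;> try linarith

end Pool.BL
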